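import Pool.Agent.H590.PL.Stm

/-! # Planar case of MP_85210c_gt (helper590), task XI (helper176) -/

set_option autoImplicit false

open MeasureTheory Filter Topology Set

namespace Pool.Agent.H176.PL

open H590PL

noncomputable section

/-- the integrand for `l = 1` -/
def gI (p u : ℝ) : ℝ := ((1 + u) ^ (1 / p) + (1 + u) ^ (-(1 / p)) - 2) / u ^ 2

theorem gI_nonneg {p u : ℝ} (hu : 0 < u) : 0 ≤ gI p u := by
  have h1 : 0 < 1 + u := by linarith
  have h2 : 0 < (1 + u) ^ (1 / p) := Real.rpow_pos_of_pos h1 _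
  have h3 : (1 + u) ^ (-(1 / p)) = ((1 + u) ^ (1 / p))⁻¹ := Real.rpow_neg h1.le _
  unfold gI
  rw [h3]
  refine div_nonneg ?_ (by positivity)
  set a := (1 + u) ^ (1 / p) with ha
  have h4 : a + a⁻¹ - 2 = (a - 1) ^ 2 * a⁻¹ := by
    field_simp
    ring
  rw [h4]
  positivity

theorem gI_le_one {p u : ℝ} (hp : 1 < p) (hu : 0 < u) : gI p u ≤ 1 := by
  have h1 : 0 < 1 + u := by linarith
  have h2 : 0 < (1 + u) ^ (1 / p) := Real.rpow_pos_of_pos h1 _
  have h3 : (1 + u) ^ (-(1 / p)) = ((1 + u) ^ (1 / p))⁻¹ := Real.rpow_neg h1.le _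
  have h4 : (1 : ℝ) ≤ (1 + u) ^ (1 / p) := Real.one_le_rpow (by linarith) (by positivity)
  have h5 : (1 + u) ^ (1 / p) ≤ 1 + u := by
    calc (1 + u) ^ (1 / p) ≤ (1 + u) ^ (1 : ℝ) := by
          refine Real.rpow_le_rpow_of_exponent_le (by linarith) ?_
          rw [div_le_one (by linarith)]
          exact hp.le
      _ = 1 + u := Real.rpow_one _
  unfold gI
  rw [h3, div_le_one (by positivity)]
  set a := (1 + u) ^ (1 / p) with ha
  have h6 : a + a⁻¹ - 2 = (a - 1) ^ 2 * a⁻¹ := by
    field_simp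
    ring
  rw [h6]
  have h7 : a⁻¹ ≤ 1 := inv_le_one_of_one_le₀ h4
  have h8 : (a - 1) ^ 2 ≤ u ^ 2 := by
    refine pow_le_pow_left₀ (by linarith) (by linarith) 2
  calc (a - 1) ^ 2 * a⁻¹ ≤ (a - 1) ^ 2 * 1 := by gcongr
    _ ≤ u ^ 2 := by linarith

theorem gI_le {p u : ℝ} (hp : 1 < p) (hu : 1 < u) : gI p u ≤ 2 * u ^ (1 / p - 2) := by
  have h0 : 0 < u := by linarith
  have h1 : 0 < 1 + u := by linarith
  have h3 : (1 + u) ^ (-(1 / p)) ≤ 1 :=
    Real.rpow_le_one_of_one_le_of_nonpos (by linarith) (by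
      have : 0 < 1 / p := by positivity
      linarith)
  have hp1 : 1 / p ≤ 1 := by
    rw [div_le_one (by linarith)]
    exact hp.le
  have h4 : (1 + u) ^ (1 / p) ≤ 2 * u ^ (1 / p) := by
    calc (1 + u) ^ (1 / p) ≤ (2 * u) ^ (1 / p) :=
          Real.rpow_le_rpow h1.le (by linarith) (by positivity)
      _ = 2 ^ (1 / p) * u ^ (1 / p) := Real.mul_rpow (by norm_num) h0.le
      _ ≤ 2 * u ^ (1 / p) := by
          refine mul_le_mul_of_nonneg_right ?_ (Real.rpow_nonneg h0.le _)
          calc (2 : ℝ) ^ (1 / p) ≤ 2 ^ (1 : ℝ) := Real.rpow_le_rpow_of_exponent_le (by norm_num) hp1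
            _ = 2 := Real.rpow_one _
  have h5 : u ^ (1 / p - 2) = u ^ (1 / p) / u ^ 2 := by
    rw [Real.rpow_sub h0, Real.rpow_ofNat]
  unfold gI
  rw [h5, ← mul_div_assoc]
  refine div_le_div_of_nonneg_right ?_ (by positivity)
  linarith

theorem gI_meas (p : ℝ) : Measurable (gI p) := by
  unfold gI
  refine Measurable.div ?_ (by fun_prop)
  refine Measurable.sub (Measurable.add ?_ ?_) measurable_const
  · exact (measurable_const.add measurable_id).pow_const _
  · exact (measurable_const.add measurable_id).pow_const _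

theorem gI_int {p : ℝ} (hp : 1 < p) : IntegrableOn (gI p) (Ioi 0) := by
  rw [← Ioc_union_Ioi_eq_Ioi (zero_le_one' ℝ)]
  refine IntegrableOn.union ?_ ?_
  · refine Measure.integrableOn_of_bounded (M := 1) ?_ (gI_meas p).aestronglyMeasurable ?_
    · simp
    · rw [ae_restrict_iff' measurableSet_Ioc]
      refine Eventually.of_forall fun u hu => ?_
      rw [Real.norm_eq_abs, abs_of_nonneg (gI_nonneg hu.1)]
      exact gI_le_one hp hu.1
  · have hlt : 1 / p - 2 < -1 := by
      have : 1 / p < 1 := by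
        rw [div_lt_one (by linarith)]
        exact hp
      linarith
    refine Integrable.mono' ((integrableOn_Ioi_rpow_of_lt hlt one_pos).const_mul 2)
      (gI_meas p).aestronglyMeasurable ?_
    rw [ae_restrict_iff' measurableSet_Ioi]
    refine Eventually.of_forall fun u hu => ?_
    have hu' : (1 : ℝ) < u := hu
    rw [Real.norm_eq_abs, abs_of_nonneg (gI_nonneg (by linarith))]
    exact gI_le hp hu'

theorem resc (p : ℝ) {l : ℝ} (hl : 0 < l) (y : ℝ) :
    ((1 + l * y) ^ (1 / p) + (1 + l * y) ^ (-(1 / p)) - 2) / y ^ 2 = l ^ 2 * gI p (l * y) := by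
  unfold gI
  rw [mul_pow]
  by_cases hy : y = 0
  · subst hy
    simp
  · field_simp

theorem e0 (p y : ℝ) :
    ((1 + (0 : ℝ) * y) ^ (1 / p) + (1 + (0 : ℝ) * y) ^ (-(1 / p)) - 2) / y ^ 2 = 0 := by
  simp only [zero_mul, add_zero, Real.one_rpow]
  norm_num

theorem XI : S_XI := by
  intro p hp hp2
  constructor
  · intro l hl
    rcases hl.eq_or_lt with h | h
    · subst h
      simp only [e0]
      exact integrableOn_zero
    · have h1 : IntegrableOn (fun y => gI p (l * y)) (Ioi 0) := by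
        rw [integrableOn_Ioi_comp_mul_left_iff _ _ h, mul_zero]
        exact gI_int hp
      have h1' : IntegrableOn (fun y => l ^ 2 * gI p (l * y)) (Ioi 0) := Integrable.const_mul h1 (l ^ 2)
      refine h1'.congr_fun (fun y _ => ?_) measurableSet_Ioi
      exact (resc p h y).symm
  · intro l hl
    have e1 : Xi p 1 = ∫ u in Ioi (0 : ℝ), gI p u := by
      unfold Xi gI
      refine setIntegral_congr_fun measurableSet_Ioi fun y _ => ?_
      simp only [one_mul]
    rcases hl.eq_or_lt with h | h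
    · subst h
      rw [zero_mul]
      unfold Xi
      simp only [e0]
      exact integral_zero _ _
    · rw [e1]
      unfold Xi
      have h2 : ∫ y in Ioi (0 : ℝ), ((1 + l * y) ^ (1 / p) + (1 + l * y) ^ (-(1 / p)) - 2) / y ^ 2 =
          ∫ y in Ioi (0 : ℝ), l ^ 2 * gI p (l * y) :=
        setIntegral_congr_fun measurableSet_Ioi fun y _ => resc p h y
      rw [h2, integral_const_mul, integral_comp_mul_left_Ioi (gI p) 0 h, mul_zero, smul_eq_mul]
      field_simp

end

end Pool.Agent.H176.PL
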